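import Pool.Agent.LE.StmtsZ

/-!
# MTR: triangle inequality for the means
-/

set_option autoImplicit false

open MeasureTheory ProbabilityTheory Function Filter

open scoped ENNReal BigOperators Topology NNReal

noncomputable section

namespace Pool.Agent.LE.H72Z

open Pool.Agent.Anderson Pool.Agent.Loc Pool.Agent.Mob Pool.Agent.Helper54.Bal
  Pool.Agent.Helper96.EXP

theorem gmax_single {d : ℕ} (V : Site d → ℝ) (Λ : Finset (Site d)) (E : ℝ) (x y : Site d) :
    gmax V Λ E {x} y = |gr V Λ E x y| := by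
  unfold gmax
  rw [Finset.sup_singleton, coe_nnnorm, Real.norm_eq_abs]

/-- exponential tails give a bound of the mean -/
theorem mean_tail {Ω : Type} [MeasurableSpace Ω] (P : Measure Ω) [IsProbabilityMeasure P]
    {f : Ω → ℝ} (hm : Measurable f) (hf : Integrable f P) {a : ℝ}
    (h : ∀ t : ℝ, 0 < t → P {ω | t + a < f ω} ≤ ENNReal.ofReal (Real.exp (-t))) :
    ∫ ω, f ω ∂P ≤ a + 1 := by
  have hg : Measurable fun ω => max 0 (f ω - a) := measurable_const.max (hm.sub_const a)
  have hgi : Integrable (fun ω => max 0 (f ω - a)) P := by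
    have h1 : Integrable (fun ω => f ω - a) P := hf.sub (integrable_const a)
    have h2 := h1.pos_part
    refine h2.congr (Filter.Eventually.of_forall fun ω => ?_)
    exact max_comm _ _
  have h1 : ∫⁻ ω, ENNReal.ofReal (max 0 (f ω - a)) ∂P ≤ ENNReal.ofReal 1 := by
    have hnn : 0 ≤ᵐ[P] fun ω => max 0 (f ω - a) :=
      Filter.Eventually.of_forall fun ω => le_max_left _ _
    rw [lintegral_eq_lintegral_meas_lt P hnn hg.aemeasurable]
    calc ∫⁻ t in Set.Ioi (0 : ℝ), P {ω | t < max 0 (f ω - a)}
        ≤ ∫⁻ t in Set.Ioi (0 : ℝ), ENNReal.ofReal (Real.exp (-t)) := by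
          refine setLIntegral_mono_ae (by fun_prop) (Filter.Eventually.of_forall fun t ht => ?_)
          have ht0 : (0 : ℝ) < t := ht
          refine le_trans (measure_mono fun ω hω => ?_) (h t ht0)
          rw [Set.mem_ofPred_eq] at hω ⊢
          rcases lt_max_iff.1 hω with h3 | h3
          · linarith
          · linarith
      _ = ENNReal.ofReal (∫ t in Set.Ioi (0 : ℝ), Real.exp (-t)) := by
          rw [ofReal_integral_eq_lintegral_ofReal]
          · exact integrableOn_exp_neg_Ioi 0
          · exact Filter.Eventually.of_forall fun t => (Real.exp_pos _).le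
      _ = ENNReal.ofReal 1 := by rw [integral_exp_neg_Ioi_zero]
  have h2 : ∫ ω, max 0 (f ω - a) ∂P ≤ 1 := by
    have hnn : 0 ≤ᵐ[P] fun ω => max 0 (f ω - a) :=
      Filter.Eventually.of_forall fun ω => le_max_left _ _
    rw [integral_eq_lintegral_of_nonneg_ae hnn hg.aestronglyMeasurable]
    have h3 := ENNReal.toReal_mono ENNReal.ofReal_ne_top h1
    rwa [ENNReal.toReal_ofReal zero_le_one] at h3
  calc ∫ ω, f ω ∂P ≤ ∫ ω, (a + max 0 (f ω - a)) ∂P := by
        refine integral_mono hf ((integrable_const a).add hgi) fun ω => ?_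
        have := le_max_right 0 (f ω - a)
        simp only
        linarith
    _ = a + ∫ ω, max 0 (f ω - a) ∂P := by
        rw [integral_add (integrable_const a) hgi, integral_const, probReal_univ, one_smul]
    _ ≤ a + 1 := by linarith

/-- MTR -/
theorem mtr (hv : VtrStmt) (hF : FmnStmt) : MtrStmt := by
  intro d N σ E x u y hd hσ hσ1 hx hu hy
  obtain ⟨C, hC, hCN⟩ := hF d σ E hd hσ
  obtain ⟨hfam, hz⟩ := hCN N
  have hs0 : 0 < |σ| := abs_pos.2 hσ
  have hint : ∀ a ∈ box (0 : Site d) N, ∀ b ∈ box (0 : Site d) N,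
      Integrable (fun V => DL (box 0 N) E V a b) (PP d (gl σ)) := by
    intro a ha b hb
    have h1 : MemLp (fun V => DL (box 0 N) E V a b) 2 (PP d (gl σ)) :=
      (memLp_two_iff_integrable_sq (hfam.meas a b).aestronglyMeasurable).2 (hfam.int a ha b hb)
    exact h1.integrable one_le_two
  refine ⟨hint x hx y hy, ?_⟩
  set f : (Site d → ℝ) → ℝ := fun V =>
    DL (box 0 N) E V x y - DL (box 0 N) E V x u - DL (box 0 N) E V u y with hf
  have hfm : Measurable f := ((hfam.meas x y).sub (hfam.meas x u)).sub (hfam.meas u y)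
  have hfi : Integrable f (PP d (gl σ)) :=
    ((hint x hx y hy).sub (hint x hx u hu)).sub (hint u hu y hy)
  have hK : 0 < 8 / |σ| := by positivity
  have key : ∫ V, f V ∂(PP d (gl σ)) ≤ Real.log (8 / |σ|) + 1 := by
    refine mean_tail (PP d (gl σ)) hfm hfi fun t ht => ?_
    have e1 := hv d σ E (Real.exp (t + Real.log (8 / |σ|))) (box 0 N) {x} u y hσ
      (Real.exp_pos _)
    simp only [gmax_single] at e1
    have hincl : {V : Site d → ℝ | t + Real.log (8 / |σ|) < f V} ⊆
        (({V | gr V (box 0 N) E x y = 0} ∪ {V | gr V (box 0 N) E x u = 0}) ∪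
          {V | gr V (box 0 N) E u y = 0}) ∪
        {V | Real.exp (t + Real.log (8 / |σ|)) * |gr V (box 0 N) E x y| <
          |gr V (box 0 N) E x u| * |gr V (box 0 N) E u y|} := by
      intro V hV
      rw [Set.mem_ofPred_eq] at hV
      by_cases h1 : gr V (box 0 N) E x y = 0
      · exact Or.inl (Or.inl (Or.inl h1))
      by_cases h2 : gr V (box 0 N) E x u = 0
      · exact Or.inl (Or.inl (Or.inr h2))
      by_cases h3 : gr V (box 0 N) E u y = 0
      · exact Or.inl (Or.inr h3)
      refine Or.inr ?_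
      rw [Set.mem_ofPred_eq]
      have p1 : 0 < |gr V (box 0 N) E x y| := abs_pos.2 h1
      have p2 : 0 < |gr V (box 0 N) E x u| := abs_pos.2 h2
      have p3 : 0 < |gr V (box 0 N) E u y| := abs_pos.2 h3
      rw [← Real.log_lt_log_iff (mul_pos (Real.exp_pos _) p1) (mul_pos p2 p3),
        Real.log_mul (Real.exp_pos _).ne' p1.ne', Real.log_mul p2.ne' p3.ne', Real.log_exp]
      simp only [hf, DL] at hV
      linarith
    refine (measure_mono hincl).trans ((measure_union_le _ _).trans ?_)
    have z0 : PP d (gl σ) (({V | gr V (box 0 N) E x y = 0} ∪ {V | gr V (box 0 N) E x u = 0}) ∪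
          {V | gr V (box 0 N) E u y = 0}) = 0 :=
      measure_union_null (measure_union_null (hz x hx y hy) (hz x hx u hu)) (hz u hu y hy)
    rw [z0, zero_add]
    refine e1.trans (ENNReal.ofReal_le_ofReal (le_of_eq ?_))
    rw [Real.exp_add, Real.exp_log hK, Real.exp_neg]
    field_simp
  have hsub : ∫ V, f V ∂(PP d (gl σ)) = ∫ V, DL (box 0 N) E V x y ∂(PP d (gl σ)) -
      ∫ V, DL (box 0 N) E V x u ∂(PP d (gl σ)) - ∫ V, DL (box 0 N) E V u y ∂(PP d (gl σ)) := by
    have q1 : Integrable (fun V => DL (box 0 N) E V x y - DL (box 0 N) E V x u) (PP d (gl σ)) :=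
      (hint x hx y hy).sub (hint x hx u hu)
    simp only [hf]
    rw [integral_sub q1 (hint u hu y hy), integral_sub (hint x hx y hy) (hint x hx u hu)]
  have hlog : Real.log (8 / |σ|) ≤ 7 + Real.log (1 / |σ|) := by
    have h8 : Real.log 8 ≤ 7 := by
      have := Real.log_le_sub_one_of_pos (show (0 : ℝ) < 8 by norm_num)
      linarith
    rw [Real.log_div (by norm_num) hs0.ne', Real.log_div one_ne_zero hs0.ne', Real.log_one]
    linarith
  rw [hsub] at key
  linarith

end Pool.Agent.LE.H72Z
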